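import Pool.Agent.helper38.OB.Spec

/-!
# VAR: the second moment of the number of small sums

`y` is fixed by the set `T` of its entries not shared with `x`, the indices `g` of the shared entries and the rest of `y`.
-/

namespace Pool.Agent.OB

open Finset

theorem VAR_mem_RN {j : ℕ} (c : Fin j → ℤ) (s : ℤ) (N : ℕ) (V : Finset ℕ) (x : Fin j → ℕ) :
    x ∈ RN c s N V ↔ (∀ i, x i ∈ V) ∧ Function.Injective x ∧ |s + lf c x| ≤ N := by
  classical
  unfold RN RQ Inj
  simp [and_assoc]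

theorem VAR_part (h : ℕ) (w : ℕ → ℝ) (hw0 : ∀ z, 0 ≤ w z) (V : Finset ℕ) (e : Fin h → ℤ) (N : ℕ) (M : ℝ)
    (hM : ∀ (j : ℕ) (c : Fin j → ℤ) (s : ℤ), j < h → (∀ i, ∃ k, c i = e k) →
      ∑ y ∈ RN c s N V, ∏ i, w (y i) ≤ M)
    (x : Fin h → ℕ) (T : Finset (Fin h)) (hT : T.card < h) (g : Fin h → Fin h) (G : Finset (Fin h → ℕ))
    (hG : ∀ y ∈ G, y ∈ RN e 0 N V ∧ ∀ i, i ∉ T → y i = x (g i)) :
    ∑ y ∈ G, ∏ i ∈ T, w (y i) ≤ M := by
  classical
  let σ : Fin T.card ≃ T := T.equivFin.symm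
  let Φ : (Fin h → ℕ) → (Fin T.card → ℕ) := fun y i => y (σ i)
  have hprod : ∀ y : Fin h → ℕ, ∏ i ∈ T, w (y i) = ∏ i, w (Φ y i) := by
    intro y
    rw [← Finset.prod_coe_sort T (fun i => w (y i))]
    exact (Equiv.prod_comp σ (fun i : T => w (y i))).symm
  have hsum : ∀ y : Fin h → ℕ, ∑ i ∈ T, e i * (y i : ℤ) = ∑ i, e (σ i) * (Φ y i : ℤ) := by
    intro y
    rw [← Finset.sum_coe_sort T (fun i => e i * (y i : ℤ))]
    exact (Equiv.sum_comp σ (fun i : T => e i * (y i : ℤ))).symm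
  have hinj : Set.InjOn Φ (G : Set (Fin h → ℕ)) := by
    intro y hy y' hy' heq
    funext i
    by_cases hi : i ∈ T
    · have := congrFun heq (σ.symm ⟨i, hi⟩)
      simpa [Φ] using this
    · rw [(hG y hy).2 i hi, (hG y' hy').2 i hi]
  have hsub : G.image Φ ⊆ RN (fun i => e (σ i)) (∑ i ∈ Tᶜ, e i * (x (g i) : ℤ)) N V := by
    intro z hz
    obtain ⟨y, hy, rfl⟩ := Finset.mem_image.1 hz
    obtain ⟨h1, h2⟩ := hG y hy
    rw [VAR_mem_RN] at h1 ⊢
    refine ⟨fun i => h1.1 _, ?_, ?_⟩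
    · intro a b hab
      exact σ.injective (Subtype.ext (h1.2.1 hab))
    · have h3 : lf e y = ∑ i ∈ Tᶜ, e i * (x (g i) : ℤ) + lf (fun i => e (σ i)) (Φ y) := by
        unfold lf
        rw [← hsum y, ← Finset.sum_add_sum_compl T (fun i => e i * (y i : ℤ)), add_comm]
        congr 1
        apply Finset.sum_congr rfl
        intro i hi
        rw [h2 i (Finset.mem_compl.1 hi)]
      rw [← h3]
      simpa using h1.2.2
  calc ∑ y ∈ G, ∏ i ∈ T, w (y i) = ∑ y ∈ G, ∏ i, w (Φ y i) := Finset.sum_congr rfl fun y _ => hprod y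
    _ = ∑ z ∈ G.image Φ, ∏ i, w (z i) := (Finset.sum_image (f := fun z : Fin T.card → ℕ => ∏ i, w (z i)) hinj).symm
    _ ≤ ∑ z ∈ RN (fun i => e (σ i)) (∑ i ∈ Tᶜ, e i * (x (g i) : ℤ)) N V, ∏ i, w (z i) :=
        Finset.sum_le_sum_of_subset_of_nonneg hsub fun _ _ _ => Finset.prod_nonneg fun _ _ => hw0 _
    _ ≤ M := hM _ _ _ hT fun i => ⟨_, rfl⟩

theorem VAR_core (h : ℕ) (w : ℕ → ℝ) (hw0 : ∀ z, 0 ≤ w z) (V : Finset ℕ) (e : Fin h → ℤ) (N : ℕ) (M : ℝ)
    (hM0 : 0 ≤ M)
    (hM : ∀ (j : ℕ) (c : Fin j → ℤ) (s : ℤ), j < h → (∀ i, ∃ k, c i = e k) →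
      ∑ y ∈ RN c s N V, ∏ i, w (y i) ≤ M)
    (x : Fin h → ℕ) (hx : Function.Injective x) :
    ∑ y ∈ RN e 0 N V, (if Disjoint (im x) (im y) then 0 else ∏ z ∈ im x ∪ im y, w z) ≤
      2 ^ h * (h : ℝ) ^ h * (M * ∏ i, w (x i)) := by
  classical
  set f : (Fin h → ℕ) → ℝ := fun y => if Disjoint (im x) (im y) then 0 else ∏ z ∈ im x ∪ im y, w z with hf
  have hf0 : ∀ y, 0 ≤ f y := by
    intro y
    simp only [hf]
    split_ifs
    · exact le_rfl
    · exact Finset.prod_nonneg fun _ _ => hw0 _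
  have hP0 : 0 ≤ ∏ i, w (x i) := Finset.prod_nonneg fun _ _ => hw0 _
  set G : Finset (Fin h) → (Fin h → Fin h) → Finset (Fin h → ℕ) := fun T g =>
    (RN e 0 N V).filter (fun y => (∀ i, y i ∈ im x ↔ i ∉ T) ∧ ∀ i, i ∉ T → y i = x (g i)) with hG
  -- every part
  have hpart : ∀ T g, ∑ y ∈ G T g, f y ≤ M * ∏ i, w (x i) := by
    intro T g
    by_cases hT : T.card < h
    · have h1 : ∀ y ∈ G T g, f y ≤ (∏ i, w (x i)) * ∏ i ∈ T, w (y i) := by
        intro y hy
        obtain ⟨hy1, hy2, hy3⟩ := Finset.mem_filter.1 hy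
        simp only [hf]
        split_ifs with hd
        · exact mul_nonneg hP0 (Finset.prod_nonneg fun _ _ => hw0 _)
        · have hyi : Function.Injective y := ((VAR_mem_RN _ _ _ _ _).1 hy1).2.1
          have h2 : im x ∪ im y = im x ∪ T.image y := by
            ext z
            simp only [Finset.mem_union, im, Finset.mem_image, Finset.mem_univ, true_and]
            constructor
            · rintro (hz | ⟨i, rfl⟩)
              · exact Or.inl hz
              · by_cases hi : i ∈ T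
                · exact Or.inr ⟨i, hi, rfl⟩
                · exact Or.inl ⟨g i, (hy3 i hi).symm⟩
            · rintro (hz | ⟨i, _, rfl⟩)
              · exact Or.inl hz
              · exact Or.inr ⟨i, rfl⟩
          have h3 : Disjoint (im x) (T.image y) := by
            rw [Finset.disjoint_left]
            intro z hz hz'
            obtain ⟨i, hi, rfl⟩ := Finset.mem_image.1 hz'
            exact (hy2 i).1 hz hi
          rw [h2, Finset.prod_union h3]
          unfold im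
          rw [Finset.prod_image (fun a _ b _ hab => hx hab), Finset.prod_image (fun a _ b _ hab => hyi hab)]
      calc ∑ y ∈ G T g, f y ≤ ∑ y ∈ G T g, (∏ i, w (x i)) * ∏ i ∈ T, w (y i) := Finset.sum_le_sum h1
        _ = (∏ i, w (x i)) * ∑ y ∈ G T g, ∏ i ∈ T, w (y i) := (Finset.mul_sum _ _ _).symm
        _ ≤ (∏ i, w (x i)) * M := by
            apply mul_le_mul_of_nonneg_left _ hP0
            apply VAR_part h w hw0 V e N M hM x T hT g
            intro y hy
            obtain ⟨hy1, hy2, hy3⟩ := Finset.mem_filter.1 hy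
            exact ⟨hy1, hy3⟩
        _ = M * ∏ i, w (x i) := mul_comm _ _
    · have h1 : ∀ y ∈ G T g, f y = 0 := by
        intro y hy
        obtain ⟨hy1, hy2, hy3⟩ := Finset.mem_filter.1 hy
        have hTu : T = Finset.univ := by
          apply Finset.eq_univ_of_card
          have := Finset.card_le_univ T
          simp only [Fintype.card_fin] at this ⊢
          omega
        simp only [hf]
        rw [if_pos]
        rw [Finset.disjoint_right]
        intro z hz hz'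
        obtain ⟨i, _, rfl⟩ := Finset.mem_image.1 hz
        exact (hy2 i).1 hz' (hTu ▸ Finset.mem_univ i)
      rw [Finset.sum_eq_zero h1]
      exact mul_nonneg hM0 hP0
  -- the cover
  have hcov : ∀ y ∈ RN e 0 N V, f y ≤ ∑ T : Finset (Fin h), ∑ g : Fin h → Fin h, if y ∈ G T g then f y else 0 := by
    intro y hy
    by_cases hd : Disjoint (im x) (im y)
    · have : f y = 0 := by simp only [hf]; rw [if_pos hd]
      rw [this]
      apply Finset.sum_nonneg
      intro T _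
      apply Finset.sum_nonneg
      intro g _
      split_ifs <;> simp
    · obtain ⟨z, hz1, hz2⟩ := Finset.not_disjoint_iff.1 hd
      obtain ⟨i1, _, hi1⟩ := Finset.mem_image.1 hz1
      have hg : ∀ i : Fin h, ∃ k : Fin h, y i ∈ im x → y i = x k := by
        intro i
        by_cases hi : y i ∈ im x
        · obtain ⟨k, _, hk⟩ := Finset.mem_image.1 hi
          exact ⟨k, fun _ => hk.symm⟩
        · exact ⟨i1, fun h' => absurd h' hi⟩
      choose g hg using hg
      set T : Finset (Fin h) := Finset.univ.filter (fun i => y i ∉ im x) with hTdef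
      have hmem : y ∈ G T g := by
        refine Finset.mem_filter.2 ⟨hy, fun i => ?_, fun i hi => ?_⟩
        · simp [hTdef]
        · apply hg
          simpa [hTdef] using hi
      calc f y = if y ∈ G T g then f y else 0 := by rw [if_pos hmem]
        _ ≤ ∑ g : Fin h → Fin h, if y ∈ G T g then f y else 0 :=
            Finset.single_le_sum (f := fun g => if y ∈ G T g then f y else 0)
              (fun g _ => by
                show 0 ≤ (if y ∈ G T g then f y else 0)
                split_ifs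
                · exact hf0 y
                · exact le_rfl) (Finset.mem_univ g)
        _ ≤ ∑ T : Finset (Fin h), ∑ g : Fin h → Fin h, if y ∈ G T g then f y else 0 :=
            Finset.single_le_sum (f := fun T => ∑ g : Fin h → Fin h, if y ∈ G T g then f y else 0)
              (fun T _ => Finset.sum_nonneg fun g _ => by
                show 0 ≤ (if y ∈ G T g then f y else 0)
                split_ifs
                · exact hf0 y
                · exact le_rfl) (Finset.mem_univ T)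
  calc ∑ y ∈ RN e 0 N V, f y
      ≤ ∑ y ∈ RN e 0 N V, ∑ T : Finset (Fin h), ∑ g : Fin h → Fin h, (if y ∈ G T g then f y else 0) :=
        Finset.sum_le_sum hcov
    _ = ∑ T : Finset (Fin h), ∑ g : Fin h → Fin h, ∑ y ∈ RN e 0 N V, (if y ∈ G T g then f y else 0) := by
        rw [Finset.sum_comm]
        apply Finset.sum_congr rfl
        intro T _
        rw [Finset.sum_comm]
    _ = ∑ T : Finset (Fin h), ∑ g : Fin h → Fin h, ∑ y ∈ G T g, f y := by
        apply Finset.sum_congr rfl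
        intro T _
        apply Finset.sum_congr rfl
        intro g _
        rw [← Finset.sum_filter]
        apply Finset.sum_congr _ fun _ _ => rfl
        ext y
        simp only [hG, Finset.mem_filter]
        tauto
    _ ≤ ∑ T : Finset (Fin h), ∑ g : Fin h → Fin h, M * ∏ i, w (x i) :=
        Finset.sum_le_sum fun T _ => Finset.sum_le_sum fun g _ => hpart T g
    _ = 2 ^ h * (h : ℝ) ^ h * (M * ∏ i, w (x i)) := by
        simp [Fintype.card_finset]
        ring

/-- VAR -/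
theorem VAR (hBAS : BAS_stmt) (hWTS : WTS_stmt) (hMB : MB_stmt) (hMC : MC_stmt) : VAR_stmt := by
  classical
  intro h hodd h3
  obtain ⟨CB, hCB0, hCB⟩ := hMB h h3
  obtain ⟨CC, hCC0, hCC⟩ := hMC h hodd h3
  refine ⟨2 ^ h * (h : ℝ) ^ h * (CB + 1) * CC, by positivity, ?_⟩
  intro κ hκ0 hκ1 l0 L e he J
  have hw : ∀ z, 0 ≤ wt h κ z := fun z => ((hWTS h h3 κ hκ0 hκ1 (lev h z)).2.1).le
  have hC0 : 1 ≤ C0 h := by
    unfold C0
    nlinarith
  have hC02 : 2 ≤ C0 h := by
    unfold C0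
    nlinarith
  have hbe : 2 ≤ be h := by
    unfold be
    calc 2 ≤ C0 h := hC02
      _ = C0 h ^ 1 := (pow_one _).symm
      _ ≤ C0 h ^ 6 := Nat.pow_le_pow_right hC0 (by norm_num)
  have hbR : (2 : ℝ) ≤ (be h : ℝ) := by exact_mod_cast hbe
  have hBs : (Bs h : ℝ) = (be h : ℝ) ^ h := by
    unfold Bs
    push_cast
    rfl
  have hB1 : (be h : ℝ) ≤ (Bs h : ℝ) := by
    rw [hBs]
    calc (be h : ℝ) = (be h : ℝ) ^ 1 := (pow_one _).symm
      _ ≤ (be h : ℝ) ^ h := pow_le_pow_right₀ (by linarith) (by omega)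
  have hB0 : (0 : ℝ) < (Bs h : ℝ) := by linarith
  have hbJ : (0 : ℝ) < (be h : ℝ) ^ J := by positivity
  -- the decreasing function
  have hdec : ∀ k : ℕ, ((J + k : ℕ) + 1 : ℝ) / (be h : ℝ) ^ (J + k) ≤ (J + 1) / (be h : ℝ) ^ J := by
    intro k
    rw [div_le_div_iff₀ (by positivity) hbJ, pow_add]
    have hk : ((k : ℝ) + 1) ≤ (be h : ℝ) ^ k := by
      have h1 : k + 1 ≤ 2 ^ k := Nat.lt_two_pow_self
      have h2 : (2 : ℝ) ^ k ≤ (be h : ℝ) ^ k := pow_le_pow_left₀ (by norm_num) hbR k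
      have h3 : ((k : ℝ) + 1) ≤ 2 ^ k := by exact_mod_cast h1
      linarith
    have h4 : ((J + k : ℕ) + 1 : ℝ) ≤ (J + 1) * ((k : ℝ) + 1) := by
      push_cast
      nlinarith [(Nat.cast_nonneg J : (0 : ℝ) ≤ J), (Nat.cast_nonneg k : (0 : ℝ) ≤ k),
        mul_nonneg (Nat.cast_nonneg J : (0 : ℝ) ≤ J) (Nat.cast_nonneg k : (0 : ℝ) ≤ k)]
    calc ((J + k : ℕ) + 1 : ℝ) * (be h : ℝ) ^ J ≤ ((J + 1) * ((k : ℝ) + 1)) * (be h : ℝ) ^ J :=
          mul_le_mul_of_nonneg_right h4 hbJ.le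
      _ ≤ ((J + 1) * (be h : ℝ) ^ k) * (be h : ℝ) ^ J := by
          apply mul_le_mul_of_nonneg_right _ hbJ.le
          apply mul_le_mul_of_nonneg_left hk (by positivity)
      _ = (J + 1) * ((be h : ℝ) ^ J * (be h : ℝ) ^ k) := by ring
  set D : ℝ := (Bs h : ℝ) ^ J * (J + 1) / (be h : ℝ) ^ J with hD
  have hD1 : 1 ≤ D := by
    rw [hD, le_div_iff₀ hbJ, one_mul]
    have h1 : (be h : ℝ) ^ J ≤ (Bs h : ℝ) ^ J := pow_le_pow_left₀ (by linarith) hB1 J
    have h2 : (0 : ℝ) ≤ (Bs h : ℝ) ^ J * J := by positivity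
    linarith
  have hM : ∀ (j : ℕ) (c : Fin j → ℤ) (s : ℤ), j < h → (∀ i, ∃ k, c i = e k) →
      ∑ y ∈ RN c s (Bs h ^ J) (U h l0 L), ∏ i, wt h κ (y i) ≤ (CB + 1) * D := by
    intro j c s hj hc
    rcases Nat.eq_zero_or_pos j with rfl | hj0
    · have h1 : ∀ y ∈ RN c s (Bs h ^ J) (U h l0 L), ∏ i, wt h κ (y i) = 1 := by
        intro y _
        simp
      rw [Finset.sum_congr rfl h1]
      have h2 : (RN c s (Bs h ^ J) (U h l0 L)).card ≤ 1 := Finset.card_le_one.2 fun a _ b _ => Subsingleton.elim a b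
      simp only [Finset.sum_const, nsmul_eq_mul, mul_one]
      have h3 : ((RN c s (Bs h ^ J) (U h l0 L)).card : ℝ) ≤ 1 := by exact_mod_cast h2
      nlinarith
    · have hcf : Cf h c := by
        intro i
        obtain ⟨k, hk⟩ := hc i
        rw [hk]
        rcases he k with h1 | h1 <;> rw [h1] <;> simp <;> omega
      have h1 := hCB κ hκ0 hκ1 l0 L j c hj0 hj hcf s J (max J l0) rfl
      obtain ⟨k, hk⟩ : ∃ k, max J l0 = J + k := ⟨max J l0 - J, by omega⟩
      rw [hk] at h1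
      have h2 := hdec k
      have h3 : CB * (Bs h : ℝ) ^ J * (((J + k : ℕ) : ℝ) + 1) / (be h : ℝ) ^ (J + k) ≤ CB * D := by
        rw [hD]
        calc CB * (Bs h : ℝ) ^ J * (((J + k : ℕ) : ℝ) + 1) / (be h : ℝ) ^ (J + k)
            = (CB * (Bs h : ℝ) ^ J) * ((((J + k : ℕ) : ℝ) + 1) / (be h : ℝ) ^ (J + k)) := by ring
          _ ≤ (CB * (Bs h : ℝ) ^ J) * ((J + 1) / (be h : ℝ) ^ J) := by
              apply mul_le_mul_of_nonneg_left h2 (by positivity)
          _ = CB * ((Bs h : ℝ) ^ J * (J + 1) / (be h : ℝ) ^ J) := by ring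
      have h4 : Ex h κ (RN c s (Bs h ^ J) (U h l0 L)) = ∑ y ∈ RN c s (Bs h ^ J) (U h l0 L), ∏ i, wt h κ (y i) := rfl
      rw [← h4]
      have h5 : CB * D ≤ (CB + 1) * D := by nlinarith
      exact h1.trans (h3.trans h5)
  calc ∑ x ∈ RN e 0 (Bs h ^ J) (U h l0 L), ∑ y ∈ RN e 0 (Bs h ^ J) (U h l0 L),
        (if Disjoint (im x) (im y) then 0 else ∏ z ∈ im x ∪ im y, wt h κ z)
      ≤ ∑ x ∈ RN e 0 (Bs h ^ J) (U h l0 L), 2 ^ h * (h : ℝ) ^ h * (((CB + 1) * D) * ∏ i, wt h κ (x i)) := by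
        apply Finset.sum_le_sum
        intro x hx
        exact VAR_core h (wt h κ) hw (U h l0 L) e (Bs h ^ J) ((CB + 1) * D) (by positivity) hM x
          ((VAR_mem_RN _ _ _ _ _).1 hx).2.1
    _ = 2 ^ h * (h : ℝ) ^ h * ((CB + 1) * D) * Ex h κ (RN e 0 (Bs h ^ J) (U h l0 L)) := by
        unfold Ex
        rw [Finset.mul_sum]
        apply Finset.sum_congr rfl
        intro x _
        ring
    _ ≤ 2 ^ h * (h : ℝ) ^ h * ((CB + 1) * D) * (CC * (Bs h : ℝ) ^ J) := by
        apply mul_le_mul_of_nonneg_left _ (by positivity)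
        refine (hCC κ hκ0 hκ1 l0 L e he J).trans ?_
        have h1 : κ ^ h ≤ 1 := pow_le_one₀ hκ0.le hκ1
        have h2 : (0 : ℝ) < CC * (Bs h : ℝ) ^ J := by positivity
        calc CC * κ ^ h * (Bs h : ℝ) ^ J = κ ^ h * (CC * (Bs h : ℝ) ^ J) := by ring
          _ ≤ 1 * (CC * (Bs h : ℝ) ^ J) := mul_le_mul_of_nonneg_right h1 h2.le
          _ = CC * (Bs h : ℝ) ^ J := one_mul _
    _ = 2 ^ h * (h : ℝ) ^ h * (CB + 1) * CC * (J + 1) * (Bs h : ℝ) ^ (2 * J) / (be h : ℝ) ^ J := by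
        rw [hD, two_mul, pow_add]
        ring

end Pool.Agent.OB
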